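import Pool.Agent.H85.NF.Q

/-!
# NF, row DGE: symmetric matrices can be diagonalised
-/

set_option autoImplicit false

namespace Pool.NF

open Matrix

/-- **DGE.** -/
theorem dge : DGEStmt := by
  intro k _ h2 ι _ _ A hA
  have : Invertible (2 : k) := invertibleOfNonzero h2
  have hs : LinearMap.IsSymm (Matrix.toBilin' A) := ⟨fun x y => by
    rw [RingHom.id_apply, Matrix.toBilin'_apply', Matrix.toBilin'_apply',
      Matrix.dotProduct_mulVec, ← Matrix.mulVec_transpose, hA, dotProduct_comm]⟩
  obtain ⟨v, hv⟩ := LinearMap.BilinForm.exists_orthogonal_basis hs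
  have hc : Module.finrank k (ι → k) = Fintype.card ι := Module.finrank_fintype_fun_eq_card k
  let e : Fin (Module.finrank k (ι → k)) ≃ ι :=
    Fintype.equivOfCardEq (by rw [Fintype.card_fin, hc])
  let w : Module.Basis ι k (ι → k) := v.reindex e
  refine ⟨Matrix.of fun i j => w j i, fun i => w i ⬝ᵥ (A *ᵥ w i), ?_, ?_⟩
  · have h1 : (Matrix.of fun i j => w j i) = (Pi.basisFun k ι).toMatrix w := by
      ext i j
      simp [Module.Basis.toMatrix_apply]
    rw [h1]
    have h3 := (Pi.basisFun k ι).toMatrix_mul_toMatrix_flip w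
    intro h4
    have h5 := congrArg Matrix.det h3
    rw [Matrix.det_mul, h4, zero_mul, Matrix.det_one] at h5
    exact zero_ne_one h5
  · ext i j
    have h1 : ((Matrix.of fun i j => w j i)ᵀ * A * (Matrix.of fun i j => w j i)) i j =
        w i ⬝ᵥ (A *ᵥ w j) := by
      rw [Matrix.mul_assoc, Matrix.mul_apply]
      rfl
    rw [h1]
    by_cases hij : i = j
    · subst hij
      rw [Matrix.diagonal_apply_eq]
    · rw [Matrix.diagonal_apply_ne _ hij]
      have h6 : e.symm i ≠ e.symm j := fun h => hij (e.symm.injective h)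
      have h7 : Matrix.toBilin' A (v (e.symm i)) (v (e.symm j)) = 0 := hv h6
      rw [Matrix.toBilin'_apply'] at h7
      simpa [w] using h7

end Pool.NF
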