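import Pool.Agent.H33.NF.K
import Pool.Agent.H86.HYP.ONE

/-!
# NF, row INFN: the archimedean places
-/

set_option autoImplicit false

namespace Pool.NF

open Polynomial Matrix NumberField IsDedekindDomain Pool.HYP Pool.TOW Pool.AVS Pool.T1

namespace H12I

/-- What has to be shown at one embedding. -/
def Gd (G S : Matrix (Fin 3) (Fin 3) ℂ) (Y : ℝ) (g : Matrix (Fin 3) (Fin 3) ℂ) : Prop :=
  g.det ≠ 0 ∧ (∀ i j, ‖(gᵀ * G * g) i j‖ ≤ 1) ∧ 4⁻¹ ≤ ‖(gᵀ * G * g).det‖ ∧
    ∀ i j, ‖(gᵀ * S * g) i j‖ ≤ Y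

theorem map_sand {A B : Type} [CommRing A] [CommRing B] (φ : A →+* B)
    (g G : Matrix (Fin 3) (Fin 3) A) :
    (g.map φ)ᵀ * G.map φ * g.map φ = (gᵀ * G * g).map φ := by
  rw [Matrix.map_mul, Matrix.map_mul, Matrix.transpose_map]

theorem Gd.conj {G S : Matrix (Fin 3) (Fin 3) ℂ} {Y : ℝ} {g : Matrix (Fin 3) (Fin 3) ℂ}
    (h : Gd G S Y g) :
    Gd (G.map (starRingEnd ℂ)) (S.map (starRingEnd ℂ)) Y (g.map (starRingEnd ℂ)) := by
  obtain ⟨h1, h2, h3, h4⟩ := h
  have hd : ∀ M : Matrix (Fin 3) (Fin 3) ℂ, (M.map (starRingEnd ℂ)).det =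
      (starRingEnd ℂ) M.det := fun M => by
    rw [RingHom.map_det]; rfl
  refine ⟨?_, fun i j => ?_, ?_, fun i j => ?_⟩
  · rw [hd]
    exact fun h0 => h1 ((map_eq_zero _).1 h0)
  · rw [map_sand, Matrix.map_apply, Complex.norm_conj]
    exact h2 i j
  · rw [map_sand, hd, Complex.norm_conj]
    exact h3
  · rw [map_sand, Matrix.map_apply, Complex.norm_conj]
    exact h4 i j

section Fields

variable {K : Type} [Field K] [NumberField K]

theorem fk_sep {f : (𝓞 K)[X]} (hirr : Irreducible (fk K f)) : (fk K f).Separable :=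
  hirr.separable

/-- The bound for the roots. -/
theorem root_bd (hR : RTBStmt) {f : (𝓞 K)[X]} {Y : ℕ} (hY : 1 ≤ Y) (hf : f.Monic)
    (hd : f.natDegree = 3) (hN : NearN Y f) (σ : K →+* ℂ) (θ : ℂ)
    (hθ : ((fk K f).map σ).eval θ = 0) : ‖θ‖ ≤ 2 * (Y : ℝ) := by
  obtain ⟨h1, h2, h3⟩ := hN
  have hc : ∀ i, ((fk K f).map σ).coeff i = σ (f.coeff i : K) := fun i => by
    rw [coeff_map, fk, coeff_map]
  have hm : ((fk K f).map σ).Monic := (hf.map _).map σ
  have hfm : (fk K f).Monic := hf.map _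
  have hdeg : ((fk K f).map σ).natDegree = 3 := by
    rw [hfm.natDegree_map, fk, hf.natDegree_map, hd]
  refine hR (σ (f.coeff 2 : K)) (σ (f.coeff 1 : K)) (σ (f.coeff 0 : K)) θ Y
    (by exact_mod_cast hY) (h1 σ) (h2 σ) ?_ ?_
  · have h4 := h3 σ
    have h5 : σ (((f.coeff 0 + (Y : 𝓞 K) ^ 3 : 𝓞 K)) : K) = σ (f.coeff 0 : K) + (Y : ℂ) ^ 3 := by
      push_cast
      simp
    rw [h5] at h4
    exact_mod_cast h4
  · rw [eval_eq_sum_range, hdeg] at hθ
    simp only [Finset.sum_range_succ, Finset.sum_range_zero, hc] at hθ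
    have h6 : f.coeff 3 = 1 := by rw [← hd]; exact hf.coeff_natDegree
    rw [h6] at hθ
    simp only [map_one, pow_zero, pow_one, mul_one, one_mul, zero_add] at hθ
    linear_combination hθ

theorem cplx (hA : ARCStmt) (hR : RTBStmt) {f : (𝓞 K)[X]} {Y : ℕ} {α : K[X]} (hY : 1 ≤ Y)
    (hf : f.Monic) (hd : f.natDegree = 3) (hN : NearN Y f) (hirr : Irreducible (fk K f))
    (hc : IsCoprime α (fk K f)) (σ : K →+* ℂ) : ∃ g,
    Gd ((gr 0 3 (fk K f) α).map σ) ((gr 1 3 (fk K f) α).map σ) (2 * Y) g := by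
  have hfm : (fk K f).Monic := hf.map _
  have hdk : (fk K f).natDegree = 3 := by rw [fk, hf.natDegree_map, hd]
  obtain ⟨g, h1, h2, h3⟩ := hA ((fk K f).map σ) (α.map σ) (2 * Y) (hfm.map σ)
    (by rw [hfm.natDegree_map, hdk]) ((fk_sep hirr).map) (hc.map (mapRingHom σ))
    (by positivity) (fun θ hθ => root_bd hR hY hf hd hN σ θ hθ)
  rw [One86.gr_map σ 0 3 hfm] at h2
  rw [One86.gr_map σ 1 3 hfm] at h3
  refine ⟨g, h1, fun i j => ?_, ?_, h3⟩
  · rw [h2, Matrix.one_apply]
    split_ifs <;> simp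
  · rw [h2, Matrix.det_one, norm_one]
    norm_num

theorem realc (hA : ARRStmt) (hR : RTBStmt) {f : (𝓞 K)[X]} {Y : ℕ} {α : K[X]} (hY : 1 ≤ Y)
    (hf : f.Monic) (hd : f.natDegree = 3) (hN : NearN Y f) (hirr : Irreducible (fk K f))
    (hc : IsCoprime α (fk K f)) (σ : K →+* ℂ) (hσ : ComplexEmbedding.IsReal σ) :
    ∃ g, g.map (starRingEnd ℂ) = g ∧
    Gd ((gr 0 3 (fk K f) α).map σ) ((gr 1 3 (fk K f) α).map σ) (2 * Y) g := by
  have hfm : (fk K f).Monic := hf.map _
  have hdk : (fk K f).natDegree = 3 := by rw [fk, hf.natDegree_map, hd]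
  set ρ : K →+* ℝ := hσ.embedding with hρ
  have hρσ : Complex.ofRealHom.comp ρ = σ := by
    ext x
    exact hσ.coe_embedding_apply x
  obtain ⟨g, h1, h2, h3, h4⟩ := hA ((fk K f).map ρ) (α.map ρ) (2 * Y) (hfm.map ρ)
    (by rw [hfm.natDegree_map, hdk]) ((fk_sep hirr).map) (hc.map (mapRingHom ρ))
    (by positivity) (fun θ hθ => by
      rw [Polynomial.map_map, hρσ] at hθ
      exact root_bd hR hY hf hd hN σ θ hθ)
  rw [One86.gr_map ρ 0 3 hfm] at h2 h3
  rw [One86.gr_map ρ 1 3 hfm] at h4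
  have hG : ∀ M : Matrix (Fin 3) (Fin 3) K, M.map σ = (M.map ρ).map Complex.ofRealHom := by
    intro M
    rw [Matrix.map_map]
    ext i j
    rw [Matrix.map_apply, Matrix.map_apply, ← hρσ]
    rfl
  have hdet : ∀ M : Matrix (Fin 3) (Fin 3) ℝ, (M.map Complex.ofRealHom).det = (M.det : ℂ) :=
    fun M => by
      have := RingHom.map_det Complex.ofRealHom M
      rw [RingHom.mapMatrix_apply] at this
      rw [← this]
      rfl
  refine ⟨g.map Complex.ofRealHom, ?_, ?_, fun i j => ?_, ?_, fun i j => ?_⟩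
  · ext i j
    simp
  · rw [hdet]
    exact_mod_cast h1
  · rw [hG, map_sand, Matrix.map_apply]
    have := h2 i j
    simpa using this
  · rw [hG, map_sand, hdet, Complex.norm_real]
    exact h3
  · rw [hG, map_sand, Matrix.map_apply]
    have := h4 i j
    simpa using this

end Fields

end H12I

open H12I

/-- **INFN.** -/
theorem infn (hC : ARCStmt) (hR : ARRStmt) (hB : RTBStmt) : INFNStmt := by
  classical
  intro K _ _ f Y α hY hf hd hN hirr hc
  choose gc hgc using fun σ : K →+* ℂ => cplx hC hB hY hf hd hN hirr hc σ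
  have hr : ∀ σ : K →+* ℂ, ∃ g, ComplexEmbedding.IsReal σ → g.map (starRingEnd ℂ) = g ∧
      Gd ((gr 0 3 (fk K f) α).map σ) ((gr 1 3 (fk K f) α).map σ) (2 * Y) g := by
    intro σ
    by_cases hσ : ComplexEmbedding.IsReal σ
    · obtain ⟨g, hg⟩ := realc hR hB hY hf hd hN hirr hc σ hσ
      exact ⟨g, fun _ => hg⟩
    · exact ⟨0, fun h => absurd h hσ⟩
  choose gr' hgr using hr
  set em : (K →+* ℂ) → (K →+* ℂ) := fun σ => (InfinitePlace.mk σ).embedding with hem
  have hemc : ∀ σ, em (ComplexEmbedding.conjugate σ) = em σ := fun σ => by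
    simp only [hem, InfinitePlace.mk_conjugate_eq]
  have hem2 : ∀ σ, em σ = σ ∨ em σ = ComplexEmbedding.conjugate σ := fun σ => by
    have h1 : InfinitePlace.mk (em σ) = InfinitePlace.mk σ := InfinitePlace.mk_embedding _
    rcases InfinitePlace.mk_eq_iff.1 h1 with h2 | h2
    · exact Or.inl h2
    · right
      have h3 := congrArg ComplexEmbedding.conjugate h2
      rw [ComplexEmbedding.involutive_conjugate K (em σ)] at h3
      exact h3
  have hcc : ∀ σ : K →+* ℂ,
      ComplexEmbedding.conjugate (ComplexEmbedding.conjugate σ) = σ := fun σ =>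
    ComplexEmbedding.involutive_conjugate K σ
  have hmapc : ∀ M : Matrix (Fin 3) (Fin 3) ℂ,
      (M.map (starRingEnd ℂ)).map (starRingEnd ℂ) = M := fun M => by
    ext i j
    simp
  have hmc : ∀ (σ : K →+* ℂ) (M : Matrix (Fin 3) (Fin 3) K),
      (M.map (ComplexEmbedding.conjugate σ)).map (starRingEnd ℂ) = M.map σ := fun σ M => by
    ext i j
    simp [ComplexEmbedding.conjugate_coe_eq]
  refine ⟨fun σ => if ComplexEmbedding.IsReal σ then gr' σ else if em σ = σ then gc σ else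
    (gc (ComplexEmbedding.conjugate σ)).map (starRingEnd ℂ), fun σ => ?_, fun σ => ?_⟩
  · by_cases hσ : ComplexEmbedding.IsReal σ
    · have h1 : ComplexEmbedding.conjugate σ = σ := ComplexEmbedding.isReal_iff.1 hσ
      simp only [h1, if_pos hσ]
      exact (hgr σ hσ).1.symm
    · have h1 : ComplexEmbedding.conjugate σ ≠ σ := fun h => hσ (ComplexEmbedding.isReal_iff.2 h)
      have h2 : ¬ ComplexEmbedding.IsReal (ComplexEmbedding.conjugate σ) := fun h => by
        have := ComplexEmbedding.isReal_iff.1 h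
        rw [hcc] at this
        exact h1 this.symm
      simp only [if_neg hσ, if_neg h2, hemc, hcc]
      rcases hem2 σ with h3 | h3
      · rw [if_pos h3, if_neg (by rw [h3]; exact fun h => h1 h.symm)]
      · rw [if_pos h3, if_neg (by rw [h3]; exact h1), hmapc]
  · by_cases hσ : ComplexEmbedding.IsReal σ
    · simp only [if_pos hσ]
      exact (hgr σ hσ).2
    · simp only [if_neg hσ]
      by_cases h3 : em σ = σ
      · simp only [if_pos h3]
        exact hgc σ
      · simp only [if_neg h3]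
        have h4 := (hgc (ComplexEmbedding.conjugate σ)).conj
        rw [hmc, hmc] at h4
        exact h4

end Pool.NF
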