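import Pool.Agent.H66.NF.U
import Pool.Agent.H70.HYP.NMU

/-!
# NF, row VCN: the classes of square norm over a dyadic local field
-/

set_option autoImplicit false

namespace Pool.NF

open Polynomial Matrix NumberField IsDedekindDomain Pool.HYP Pool.TOW Pool.AVS Pool.T1 Pool.PRK

namespace H12V

theorem le_sq {G H : Type} [CommGroup G] [CommGroup H] (φ : G →* H) :
    (powMonoidHom 2 : G →* G).range ≤ ((powMonoidHom 2 : H →* H).range).comap φ := by
  rintro _ ⟨x, rfl⟩
  exact ⟨φ x, by simp⟩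

/-- The homomorphism between the groups modulo squares. -/
noncomputable def qm {G H : Type} [CommGroup G] [CommGroup H] (φ : G →* H) :
    G ⧸ (powMonoidHom 2 : G →* G).range →* H ⧸ (powMonoidHom 2 : H →* H).range :=
  QuotientGroup.map _ _ φ (le_sq φ)

theorem qm_mk {G H : Type} [CommGroup G] [CommGroup H] (φ : G →* H) (x : G) :
    qm φ (QuotientGroup.mk x) = QuotientGroup.mk (φ x) := rfl

theorem card_ker {G H : Type} [Group G] [Group H] (φ : G →* H)
    (hs : Function.Surjective φ) : Nat.card G = Nat.card H * Nat.card φ.ker := by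
  rw [Subgroup.card_eq_card_quotient_mul_card_subgroup φ.ker,
    Nat.card_congr (QuotientGroup.quotientKerEquivOfSurjective φ hs).toEquiv]

theorem mk_eq_of_sq {G : Type} [CommGroup G] (x y z : G) (h : x * z ^ 2 = y) :
    (QuotientGroup.mk x : G ⧸ (powMonoidHom 2 : G →* G).range) = QuotientGroup.mk y := by
  rw [QuotientGroup.eq]
  exact ⟨z, by rw [powMonoidHom_apply, ← h, inv_mul_cancel_left]⟩

section Loc

variable {L : Type} [Field L] {O : ValuationSubring L}

/-- The homomorphism from `O[x]/(F)` to `L[x]/(F)`. -/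
noncomputable def psi (O : ValuationSubring L) (F : O[X]) :
    AdjoinRoot F →+* AdjoinRoot (oL O F) :=
  AdjoinRoot.lift ((AdjoinRoot.of (oL O F)).comp (algebraMap O L)) (AdjoinRoot.root (oL O F)) (by
    rw [← eval₂_map]
    exact AdjoinRoot.eval₂_root _)

theorem psi_mk (F p : O[X]) :
    psi O F (AdjoinRoot.mk F p) = AdjoinRoot.mk (oL O F) (oL O p) := by
  rw [psi, AdjoinRoot.lift_mk, ← eval₂_map, ← AdjoinRoot.algebraMap_eq, ← aeval_def,
    AdjoinRoot.aeval_eq]

theorem psi_of (F : O[X]) (a : O) :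
    psi O F (AdjoinRoot.of F a) = AdjoinRoot.of (oL O F) (algebraMap O L a) := by
  rw [psi, AdjoinRoot.lift_of]
  rfl

theorem psi_norm (F : O[X]) (hF : F.Monic) (s : AdjoinRoot F) :
    Algebra.norm L (psi O F s) = algebraMap O L (Algebra.norm O s) := by
  obtain ⟨p, rfl⟩ := AdjoinRoot.mk_surjective s
  rw [psi_mk]
  exact NMU.norm_map (algebraMap O L) F p hF

end Loc

end H12V

open H12V

/-- **VCN.** -/
theorem vcn : VCNStmt := by
  classical
  intro hA hC hU L _ O hL F hF hd hirr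
  have hdvrO : IsDiscreteValuationRing O := hL.dvr
  obtain ⟨hdom, hdvr, hcomp, hfin, hirϖ⟩ := hA O hL.complete hL.fin F hF hirr
  obtain ⟨ϖ, hϖ⟩ := IsDiscreteValuationRing.exists_irreducible O
  have hϖS : Irreducible (AdjoinRoot.of F ϖ) := hirϖ ϖ hϖ
  have h2O : (2 : O) ≠ 0 := fun h => hL.two (by
    have := congrArg (algebraMap O L) h
    rwa [map_ofNat, map_zero] at this)
  have h2Ou : ¬ IsUnit (2 : O) := fun h => by
    obtain ⟨v, hv⟩ := h.exists_right_inv
    apply hL.dy
    have h1 : (2 : L) * (v : L) = 1 := by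
      have := congrArg (algebraMap O L) hv
      rw [map_mul, map_ofNat, map_one] at this
      exact this
    rw [inv_eq_of_mul_eq_one_right h1]
    exact v.2
  -- `2` in `S`
  obtain ⟨e, v2, hv2⟩ := IsDiscreteValuationRing.eq_unit_mul_pow_irreducible h2O hϖ
  have he : e ≠ 0 := by
    rintro rfl
    apply h2Ou
    rw [hv2, pow_zero, mul_one]
    exact v2.isUnit
  have hS2 : (2 : AdjoinRoot F) = AdjoinRoot.of F v2 * AdjoinRoot.of F ϖ ^ e := by
    rw [← map_pow, ← map_mul, ← hv2, map_ofNat]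
  have hv2u : IsUnit (AdjoinRoot.of F (v2 : O)) := v2.isUnit.map _
  have h2S : (2 : AdjoinRoot F) ≠ 0 := by
    rw [hS2]
    exact mul_ne_zero hv2u.ne_zero (pow_ne_zero _ hϖS.ne_zero)
  have h2Su : ¬ IsUnit (2 : AdjoinRoot F) := fun h => by
    rw [hS2] at h
    exact hϖS.not_isUnit (isUnit_of_dvd_unit (dvd_mul_of_dvd_right (dvd_pow_self _ he) _) h)
  obtain ⟨hfO1, hfO2, hcO⟩ := hU O hL.complete hL.fin h2O h2Ou
  obtain ⟨hfS1, hfS2, hcS⟩ := hU (AdjoinRoot F) hcomp hfin h2S h2Su
  have hcard := hC O F 2 hF hfO2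
  rw [map_ofNat, hd] at hcard
  set N := Nat.card (O ⧸ Ideal.span {(2 : O)}) with hN
  have hNpos : 0 < N := Nat.card_pos
  -- the homomorphisms
  set nO : (AdjoinRoot F)ˣ →* Oˣ := Units.map (Algebra.norm O : AdjoinRoot F →* O) with hnO
  set ps : (AdjoinRoot F)ˣ →* (AdjoinRoot (oL O F))ˣ :=
    Units.map (psi O F : AdjoinRoot F →* AdjoinRoot (oL O F)) with hps
  have hsurj : Function.Surjective (qm nO) := by
    intro y
    obtain ⟨a, rfl⟩ := QuotientGroup.mk_surjective y
    refine ⟨QuotientGroup.mk (Units.map (AdjoinRoot.of F : O →* AdjoinRoot F) a), ?_⟩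
    rw [qm_mk]
    refine mk_eq_of_sq _ _ a⁻¹ ?_
    have h1 : nO (Units.map (AdjoinRoot.of F : O →* AdjoinRoot F) a) = a ^ 3 := by
      ext1
      rw [hnO, Units.coe_map, Units.coe_map, Units.val_pow_eq_pow_val]
      have := NMU.norm_C F (a : O) hF
      rw [hd, AdjoinRoot.mk_C] at this
      exact this
    rw [h1, inv_pow, ← div_eq_mul_inv, div_eq_iff_eq_mul]
    exact pow_succ' a 2
  have hker : Nat.card (qm nO).ker = N ^ 2 := by
    have h1 := card_ker (qm nO) hsurj
    rw [hcS, hcard, hcO] at h1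
    have h2 : 2 * N * Nat.card (qm nO).ker = 2 * N * N ^ 2 := by
      rw [← h1]; ring
    exact Nat.eq_of_mul_eq_mul_left (by positivity) h2
  have hsub : VL (oL O F) ⊆ (qm ps) '' ((qm nO).ker : Set _) := by
    rintro _ ⟨u, rfl, r, hr⟩
    -- clear denominators
    obtain ⟨h, hh⟩ := AdjoinRoot.mk_surjective (u : AdjoinRoot (oL O F))
    obtain ⟨b, hbM, hb⟩ := IsLocalization.integerNormalization_spec (nonZeroDivisors O) h
    set p0 := IsLocalization.integerNormalization (nonZeroDivisors O) h with hp0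
    have hb0 : b ≠ 0 := nonZeroDivisors.ne_zero hbM
    obtain ⟨m, v, hv⟩ := IsDiscreteValuationRing.eq_unit_mul_pow_irreducible hb0 hϖ
    have hbu : psi O F (AdjoinRoot.of F b) * (u : AdjoinRoot (oL O F)) =
        psi O F (AdjoinRoot.mk F p0) := by
      rw [psi_mk, psi_of, ← hh, ← AdjoinRoot.mk_C, ← map_mul]
      congr 1
      have h1 : oL O p0 = b • h := hb
      rw [h1, ← smul_eq_C_mul]
      rfl
    have hnt : Nontrivial (AdjoinRoot (oL O F)) := by
      refine AdjoinRoot.nontrivial _ ?_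
      rw [oL, (hF.degree_map _), degree_eq_natDegree hF.ne_zero, hd]
      norm_num
    have hunitL : ∀ a : O, a ≠ 0 → IsUnit (psi O F (AdjoinRoot.of F a)) := by
      intro a ha
      rw [psi_of]
      refine IsUnit.map _ (isUnit_iff_ne_zero.2 ?_)
      intro h0
      exact ha ((FaithfulSMul.algebraMap_injective O L) (by rw [h0, map_zero]))
    have hp00 : AdjoinRoot.mk F p0 ≠ 0 := by
      intro h0
      rw [h0, map_zero] at hbu
      exact ((hunitL b hb0).mul u.isUnit).ne_zero hbu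
    obtain ⟨j, s, hs⟩ := IsDiscreteValuationRing.eq_unit_mul_pow_irreducible hp00 hϖS
    -- the unit `s'`
    set vS : (AdjoinRoot F)ˣ := Units.map (AdjoinRoot.of F : O →* AdjoinRoot F) v with hvS
    obtain ⟨π, hπ⟩ := hunitL ϖ hϖ.ne_zero
    have hps1 : ∀ x : (AdjoinRoot F)ˣ, ((ps x : (AdjoinRoot (oL O F))ˣ) :
        AdjoinRoot (oL O F)) = psi O F (x : AdjoinRoot F) := fun x => rfl
    obtain ⟨s', hs'⟩ : ∃ s' : (AdjoinRoot F)ˣ, s = s' * vS := ⟨s * vS⁻¹, by
      rw [inv_mul_cancel_right]⟩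
    have hmain : u * π ^ m = ps s' * π ^ j := by
      have h1 : ps vS * (u * π ^ m) = ps s * π ^ j := by
        ext1
        rw [Units.val_mul, Units.val_mul, Units.val_mul, Units.val_pow_eq_pow_val,
          Units.val_pow_eq_pow_val, hps1, hps1, hπ]
        have h2 : psi O F (AdjoinRoot.of F b) =
            psi O F (vS : AdjoinRoot F) * psi O F (AdjoinRoot.of F ϖ) ^ m := by
          rw [← map_pow, ← map_mul, hv, map_mul, map_pow]
          rfl
        rw [h2, hs, map_mul, map_pow] at hbu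
        rw [← hbu]
        ring
      rw [hs', map_mul, mul_comm (ps s') (ps vS), mul_assoc] at h1
      exact mul_left_cancel h1
    -- norms
    have hnπ : Algebra.norm L (π : AdjoinRoot (oL O F)) = (algebraMap O L ϖ) ^ 3 := by
      rw [hπ, psi_norm F hF, ← AdjoinRoot.mk_C, NMU.norm_C F ϖ hF, hd, map_pow]
    have hnorm : r * r * (algebraMap O L ϖ) ^ (3 * m) =
        algebraMap O L (nO s') * (algebraMap O L ϖ) ^ (3 * j) := by
      have h1 := congrArg (fun x : (AdjoinRoot (oL O F))ˣ =>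
        Algebra.norm L (x : AdjoinRoot (oL O F))) hmain
      simp only [Units.val_mul, Units.val_pow_eq_pow_val, map_mul, map_pow] at h1
      rw [hnπ, hr, ← pow_mul, ← pow_mul, hps1, psi_norm F hF] at h1
      exact h1
    have hϖL : algebraMap O L ϖ ≠ 0 := fun h0 =>
      hϖ.ne_zero ((FaithfulSMul.algebraMap_injective O L) (by rw [h0, map_zero]))
    have hr0 : r ≠ 0 := by
      rintro rfl
      rw [zero_mul, zero_mul] at hnorm
      have h2 : algebraMap O L (nO s') ≠ 0 := ((nO s').isUnit.map (algebraMap O L)).ne_zero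
      exact mul_ne_zero h2 (pow_ne_zero _ hϖL) hnorm.symm
    obtain ⟨x, y, hy, hxy⟩ := IsFractionRing.div_surjective (A := O) r
    have hy0 : y ≠ 0 := nonZeroDivisors.ne_zero hy
    have hyL : algebraMap O L y ≠ 0 := fun h0 =>
      hy0 ((FaithfulSMul.algebraMap_injective O L) (by rw [h0, map_zero]))
    have hx0 : x ≠ 0 := by
      rintro rfl
      rw [map_zero, zero_div] at hxy
      exact hr0 hxy.symm
    obtain ⟨c, w, hw⟩ := IsDiscreteValuationRing.eq_unit_mul_pow_irreducible hx0 hϖ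
    obtain ⟨a, w', hw'⟩ := IsDiscreteValuationRing.eq_unit_mul_pow_irreducible hy0 hϖ
    have hkey : ((w ^ 2 : Oˣ) : O) * ϖ ^ (2 * c + 3 * m) =
        ((nO s' * w' ^ 2 : Oˣ) : O) * ϖ ^ (3 * j + 2 * a) := by
      apply FaithfulSMul.algebraMap_injective O L
      have h1 : r * algebraMap O L y = algebraMap O L x := by
        rw [← hxy, div_mul_cancel₀ _ hyL]
      have h2 : (algebraMap O L x) ^ 2 * (algebraMap O L ϖ) ^ (3 * m) =
          algebraMap O L (nO s') * (algebraMap O L ϖ) ^ (3 * j) * (algebraMap O L y) ^ 2 := by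
        rw [← h1, ← hnorm]; ring
      rw [hw, hw'] at h2
      simp only [map_mul, map_pow, Units.val_mul, Units.val_pow_eq_pow_val] at h2 ⊢
      rw [pow_add, pow_add, pow_mul' _ 2 c, pow_mul' _ 2 a]
      linear_combination h2
    have hexp := IsDiscreteValuationRing.unit_mul_pow_congr_pow hϖ hϖ _ _ _ _ hkey
    rw [hexp] at hkey
    have hun := IsDiscreteValuationRing.unit_mul_pow_congr_unit hϖ _ _ _ _ hkey
    obtain ⟨t, ht⟩ : ∃ t, j + m = 2 * t := ⟨(j + m) / 2, by omega⟩
    refine ⟨QuotientGroup.mk s', ?_, ?_⟩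
    · rw [SetLike.mem_coe, MonoidHom.mem_ker, qm_mk, QuotientGroup.eq_one_iff]
      refine ⟨w * w'⁻¹, ?_⟩
      rw [powMonoidHom_apply, mul_pow, hun, inv_pow, mul_inv_cancel_right]
    · rw [qm_mk]
      refine mk_eq_of_sq _ _ (π ^ t * (π ^ m)⁻¹) ?_
      rw [mul_pow, ← pow_mul, mul_comm t 2, ← ht, pow_add, inv_pow, ← mul_assoc, ← mul_assoc,
        ← hmain, mul_assoc u, ← pow_two, mul_inv_cancel_right]
  refine ⟨?_, ?_⟩
  · have : Finite (qm nO).ker := Subtype.finite
    exact (Set.Finite.image _ (Set.toFinite _)).subset hsub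
  · have hfin2 : Set.Finite (SetLike.coe (qm nO).ker) := Set.toFinite _
    calc (VL (oL O F)).ncard ≤ ((qm ps) '' (SetLike.coe (qm nO).ker)).ncard :=
          Set.ncard_le_ncard hsub (hfin2.image _)
      _ ≤ (SetLike.coe (qm nO).ker).ncard := Set.ncard_image_le hfin2
      _ = N ^ 2 := by rw [← hker]; rfl

end Pool.NF
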